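import Pool.Agent.Q39.SP.Defs
import Pool.Agent.Q39.POG.Grade
import Pool.Agent.Chud.PD1

set_option autoImplicit false

/-!
# Linear forms, determinants of logarithmic derivations
-/

namespace Pool.Agent.Q39.SP

open MvPolynomial Pool.Agent.Q39.POG

variable {K : Type} [Field K] {l n : ℕ}

lemma linearForm_homog (a : Fin l → K) : (linearForm a).IsHomogeneous 1 :=
  IsHomogeneous.sum _ _ _ fun _ _ => isHomogeneous_C_mul_X _ _

lemma coeff_linearForm (a : Fin l → K) (j : Fin l) :
    coeff (Finsupp.single j 1) (linearForm a) = a j := by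
  classical
  rw [linearForm, coeff_sum]
  simp only [coeff_C_mul, coeff_X]
  rw [Finset.sum_eq_single j]
  · simp
  · intro k _ hk
    have : ¬ (Finsupp.single k 1 : Fin l →₀ ℕ) = Finsupp.single j 1 := by
      intro h
      exact hk ((Finsupp.single_left_inj one_ne_zero).1 h)
    simp [this]
  · intro h
    exact absurd (Finset.mem_univ j) h

lemma linearForm_ne_zero {a : Fin l → K} (h : a ≠ 0) : linearForm a ≠ 0 := by
  intro h0
  apply h
  funext j
  rw [← coeff_linearForm a j, h0]
  simp

lemma prime_of_homog_one {F : MvPolynomial (Fin l) K} (h : F.IsHomogeneous 1) (h0 : F ≠ 0) :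
    Prime F := by
  apply Irreducible.prime
  apply irreducible_of_totalDegree_eq_one (h.totalDegree h0)
  intro x hx
  rw [isUnit_iff_ne_zero]
  rintro rfl
  apply h0
  ext m
  simpa using hx m

lemma linearForm_prime {a : Fin l → K} (h : a ≠ 0) : Prime (linearForm a) :=
  prime_of_homog_one (linearForm_homog a) (linearForm_ne_zero h)

lemma linearForm_smul (c : K) (a : Fin l → K) : linearForm (c • a) = C c * linearForm a := by
  simp only [linearForm, Pi.smul_apply, smul_eq_mul, map_mul, mul_assoc, Finset.mul_sum]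

/-- a linear form that is divisible by another one is a multiple of it -/
lemma eq_smul_of_dvd {a b : Fin l → K} (ha : a ≠ 0) (h : linearForm a ∣ linearForm b) :
    ∃ c : K, b = c • a := by
  obtain ⟨G, hG⟩ := h
  have hG0 : G.IsHomogeneous 0 := by
    refine homog_cofactor (linearForm_homog a) (linearForm_ne_zero ha) (F := linearForm b)
      (k := 0) ?_ ?_
    · rw [zero_add]; exact linearForm_homog b
    · rw [hG, mul_comm]
  obtain ⟨c, rfl⟩ : ∃ c, G = C c := by
    refine ⟨coeff 0 G, ?_⟩
    exact (totalDegree_eq_zero_iff_eq_C).1 (Nat.le_zero.1 hG0.totalDegree_le)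
  refine ⟨c, ?_⟩
  funext j
  rw [← coeff_linearForm b j, hG, mul_comm, coeff_C_mul, coeff_linearForm]
  rfl

lemma mem_hyp (a x : Fin l → K) : x ∈ hyperplane a ↔ ∑ j, a j * x j = 0 := by
  rw [hyperplane, LinearMap.mem_ker, LinearMap.sum_apply]
  simp

lemma hyperplane_smul {c : K} (hc : c ≠ 0) (a : Fin l → K) :
    hyperplane (c • a) = hyperplane a := by
  ext x
  rw [mem_hyp, mem_hyp]
  simp only [Pi.smul_apply, smul_eq_mul, mul_assoc, ← Finset.mul_sum, mul_eq_zero, hc, false_or]

lemma relPrime_of_arr {A : Fin n → Fin l → K} (hA : IsArrangement A) {i j : Fin n} (hij : i ≠ j) :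
    IsRelPrime (linearForm (A i)) (linearForm (A j)) := by
  rw [(linearForm_prime (hA.1 i)).irreducible.isRelPrime_iff_not_dvd]
  intro h
  obtain ⟨c, hc⟩ := eq_smul_of_dvd (hA.1 i) h
  have hc0 : c ≠ 0 := by
    rintro rfl
    exact hA.1 j (by rw [hc, zero_smul])
  apply hij
  apply hA.2
  simp only
  rw [hc, hyperplane_smul hc0]

lemma defPoly_ne_zero {A : Fin n → Fin l → K} (hA : IsArrangement A) : defPoly A ≠ 0 :=
  Finset.prod_ne_zero_iff.2 fun i _ => linearForm_ne_zero (hA.1 i)

lemma defPoly_homog (A : Fin n → Fin l → K) : (defPoly A).IsHomogeneous n := by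
  have := IsHomogeneous.prod Finset.univ (fun k => linearForm (A k)) (fun _ => 1)
    (fun k _ => linearForm_homog (A k))
  simpa [defPoly] using this

/-- derivations of the polynomial ring -/
abbrev Der (K : Type) [Field K] (l : ℕ) : Type :=
  Derivation K (MvPolynomial (Fin l) K) (MvPolynomial (Fin l) K)

lemma der_linearForm (θ : Der K l) (a : Fin l → K) :
    θ (linearForm a) = ∑ j, C (a j) * θ (X j) := by
  rw [linearForm, map_sum]
  refine Finset.sum_congr rfl fun j _ => ?_
  rw [Derivation.leibniz]
  simp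

lemma der_neg_smul (f : MvPolynomial (Fin l) K) (θ : Der K l) : (-f) • θ = -(f • θ) := by
  apply MvPolynomial.derivation_ext
  intro j
  simp

lemma der_sub_smul (f g : MvPolynomial (Fin l) K) (θ : Der K l) :
    (f - g) • θ = f • θ - g • θ := by
  apply MvPolynomial.derivation_ext
  intro j
  simp [sub_mul]

/-- the coefficient matrix of `l` derivations -/
noncomputable def cmat (η : Fin l → Der K l) : Matrix (Fin l) (Fin l) (MvPolynomial (Fin l) K) :=
  Matrix.of fun r j => η r (X j)

/-- Saito: the determinant of `l` logarithmic derivations is divisible by `Q` -/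
lemma defPoly_dvd_det {A : Fin n → Fin l → K} (hA : IsArrangement A) (η : Fin l → Der K l)
    (hη : ∀ i, η i ∈ logDer A) : defPoly A ∣ (cmat η).det := by
  apply Finset.prod_dvd_of_isRelPrime
  · intro i _ j _ hij
    exact relPrime_of_arr hA hij
  · intro i _
    obtain ⟨p, hp⟩ : ∃ p, A i p ≠ 0 := by
      by_contra hcon
      push Not at hcon
      exact hA.1 i (funext hcon)
    -- the vector of coefficients
    have h1 : (cmat η).mulVec (fun j => C (A i j)) = fun r => η r (linearForm (A i)) := by
      funext r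
      rw [der_linearForm]
      simp only [Matrix.mulVec, dotProduct, cmat, Matrix.of_apply]
      exact Finset.sum_congr rfl fun j _ => mul_comm _ _
    have h2 : (cmat η).adjugate.mulVec (fun r => η r (linearForm (A i))) =
        (cmat η).det • fun j => C (A i j) := by
      rw [← h1, Matrix.mulVec_mulVec, Matrix.adjugate_mul, Matrix.smul_mulVec, Matrix.one_mulVec]
    have h3 := congrFun h2 p
    have h4 : linearForm (A i) ∣ (cmat η).det * C (A i p) := by
      have : (cmat η).det * C (A i p) = ((cmat η).det • fun j => C (A i j)) p := rfl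
      rw [this, ← h3]
      simp only [Matrix.mulVec, dotProduct]
      exact Finset.dvd_sum fun r _ => dvd_mul_of_dvd_right (hη r i) _
    refine ((linearForm_prime (hA.1 i)).dvd_or_dvd h4).resolve_right fun h5 => ?_
    have hu : IsUnit (C (A i p) : MvPolynomial (Fin l) K) := (IsUnit.mk0 _ hp).map C
    exact (linearForm_prime (hA.1 i)).not_isUnit (isUnit_of_dvd_unit h5 hu)

/-- the relation between `l + 1` rows given by the maximal minors -/
lemma minors_relation (θ : Fin (l + 1) → Der K l) :
    ∑ i : Fin (l + 1), ((-1) ^ ((i : ℕ) + 1) * (cmat fun r => θ (i.succAbove r)).det) • θ i = 0 := by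
  apply MvPolynomial.derivation_ext
  intro j
  have h0 : (Matrix.of fun (i : Fin (l + 1)) (k : Fin (l + 1)) =>
      (Fin.cons (θ i (X j)) (fun k' : Fin l => θ i (X k')) :
        Fin (l + 1) → MvPolynomial (Fin l) K) k :
        Matrix (Fin (l + 1)) (Fin (l + 1)) (MvPolynomial (Fin l) K)).det = 0 := by
    apply Matrix.det_zero_of_column_eq (i := 0) (j := j.succ) (Fin.succ_ne_zero j).symm
    intro k
    simp
  rw [Matrix.det_succ_column_zero] at h0
  have h1 : (∑ i : Fin (l + 1), ((-1) ^ ((i : ℕ) + 1) *
      (cmat fun r => θ (i.succAbove r)).det) • θ i) (X j) =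
      -∑ i : Fin (l + 1), (-1) ^ (i : ℕ) * θ i (X j) *
        (cmat fun r => θ (i.succAbove r)).det := by
    rw [← Finset.sum_neg_distrib]
    have : ∀ (s : Finset (Fin (l + 1))) (f : Fin (l + 1) → MvPolynomial (Fin l) K),
        (∑ i ∈ s, f i • θ i) (X j) = ∑ i ∈ s, f i * θ i (X j) := by
      intro s f
      induction s using Finset.induction_on with
      | empty => simp
      | insert a s ha ih =>
        rw [Finset.sum_insert ha, Finset.sum_insert ha, Derivation.add_apply, ih,
          Derivation.smul_apply, smul_eq_mul]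
    rw [this]
    refine Finset.sum_congr rfl fun i _ => ?_
    rw [pow_succ]
    ring
  rw [h1]
  simp only [Derivation.coe_zero, Pi.zero_apply, neg_eq_zero]
  refine Eq.trans (Finset.sum_congr rfl fun i _ => ?_) h0
  congr 1

lemma sum_smul_apply {ι : Type} (s : Finset ι) (f : ι → MvPolynomial (Fin l) K) (θ : ι → Der K l)
    (F : MvPolynomial (Fin l) K) : (∑ i ∈ s, f i • θ i) F = ∑ i ∈ s, f i * θ i F := by
  classical
  induction s using Finset.induction_on with
  | empty => simp
  | insert a s ha ih =>
    rw [Finset.sum_insert ha, Finset.sum_insert ha, Derivation.add_apply, ih,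
      Derivation.smul_apply, smul_eq_mul]

/-- `l` derivations with nonvanishing determinant are linearly independent -/
lemma indep_of_det {η : Fin l → Der K l} (h : (cmat η).det ≠ 0)
    {f : Fin l → MvPolynomial (Fin l) K} (hf : ∑ i, f i • η i = 0) : f = 0 := by
  have h1 : Matrix.vecMul f (cmat η) = 0 := by
    funext j
    have := congrArg (fun d : Der K l => d (X j)) hf
    simp only [sum_smul_apply, Derivation.coe_zero, Pi.zero_apply] at this
    simpa [Matrix.vecMul, dotProduct, cmat] using this
  exact Matrix.eq_zero_of_vecMul_eq_zero h h1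

/-- homogeneity of the determinant -/
lemma det_homog (η : Fin l → Der K l) (d : Fin l → ℕ) (h : ∀ i, IsHomogeneousDer (η i) (d i)) :
    (cmat η).det.IsHomogeneous (∑ i, d i) := by
  rw [Matrix.det_apply]
  apply IsHomogeneous.sum
  intro σ _
  have h1 : (∏ i, cmat η (σ i) i).IsHomogeneous (∑ i, d (σ i)) :=
    IsHomogeneous.prod _ _ _ fun i _ => h (σ i) i
  have h2 : ∑ i, d (σ i) = ∑ i, d i := Equiv.sum_comp σ d
  rw [h2] at h1
  rcases Int.units_eq_one_or (Equiv.Perm.sign σ) with hs | hs
  · rw [hs, one_smul]; exact h1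
  · rw [hs, Units.neg_smul, one_smul]; exact h1.neg

/-! ### restriction to a hyperplane -/

/-- the substitution that restricts to `linearForm a = 0` along `e` -/
noncomputable def rst (a e : Fin l → K) :
    MvPolynomial (Fin l) K →ₐ[K] MvPolynomial (Fin l) K :=
  aeval fun j => X j - C (e j) * linearForm a

lemma dvd_sub_rst (a e : Fin l → K) (F : MvPolynomial (Fin l) K) :
    linearForm a ∣ F - rst a e F := by
  rw [← Ideal.mem_span_singleton]
  have h1 : (Ideal.Quotient.mkₐ K (Ideal.span {linearForm a})).comp (AlgHom.id K _) =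
      (Ideal.Quotient.mkₐ K (Ideal.span {linearForm a})).comp (rst a e) := by
    apply MvPolynomial.algHom_ext
    intro i
    simp only [AlgHom.comp_apply, Ideal.Quotient.mkₐ_eq_mk, AlgHom.id_apply]
    refine (Ideal.Quotient.eq).2 ?_
    simp only [rst, aeval_X, sub_sub_cancel]
    exact Ideal.mul_mem_left _ _ (Ideal.mem_span_singleton_self _)
  have h2 := DFunLike.congr_fun h1 F
  simp only [AlgHom.comp_apply, Ideal.Quotient.mkₐ_eq_mk, AlgHom.id_apply] at h2
  exact (Ideal.Quotient.eq).1 h2

lemma rst_linearForm {a e : Fin l → K} (h : ∑ j, a j * e j = 1) :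
    rst a e (linearForm a) = 0 := by
  conv_lhs => rw [linearForm, map_sum]
  have : ∀ j, rst a e (C (a j) * X j) = C (a j) * X j - C (a j * e j) * linearForm a := by
    intro j
    rw [map_mul]
    simp only [rst, aeval_X]
    rw [← algebraMap_eq, AlgHom.commutes, algebraMap_eq, map_mul]
    ring
  simp only [this, Finset.sum_sub_distrib]
  rw [← Finset.sum_mul, ← map_sum, h, map_one, one_mul, linearForm, sub_self]

lemma dvd_iff_rst {a e : Fin l → K} (h : ∑ j, a j * e j = 1) (F : MvPolynomial (Fin l) K) :
    linearForm a ∣ F ↔ rst a e F = 0 := by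
  constructor
  · rintro ⟨G, rfl⟩
    rw [map_mul, rst_linearForm h, zero_mul]
  · intro h0
    have := dvd_sub_rst a e F
    rwa [h0, sub_zero] at this

lemma rst_rst {a e : Fin l → K} (h : ∑ j, a j * e j = 1) (F : MvPolynomial (Fin l) K) :
    rst a e (rst a e F) = rst a e F := by
  have h1 := (dvd_iff_rst h _).1 (dvd_sub_rst a e F)
  rw [map_sub, sub_eq_zero] at h1
  exact h1.symm

lemma exists_dual {a : Fin l → K} (h : a ≠ 0) : ∃ e : Fin l → K, ∑ j, a j * e j = 1 := by
  obtain ⟨p, hp⟩ : ∃ p, a p ≠ 0 := by
    by_contra hcon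
    push Not at hcon
    exact h (funext hcon)
  refine ⟨Pi.single p (a p)⁻¹, ?_⟩
  simp [Pi.single_apply, hp]

/-- `rst` preserves homogeneity -/
lemma rst_homog (a e : Fin l → K) {F : MvPolynomial (Fin l) K} {k : ℕ} (h : F.IsHomogeneous k) :
    (rst a e F).IsHomogeneous k := by
  have := h.aeval (φ := F) (g := fun j => X j - C (e j) * linearForm a) (n := 1) (fun i =>
    (isHomogeneous_X _ _).sub ((linearForm_homog a).C_mul _))
  rwa [one_mul] at this

/-- the gcd argument: if `x` divides all `b j * c` and no prime divides all `b j`, then `x`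
divides `c` -/
lemma dvd_of_dvd_mul {R ι : Type} [CommRing R] [IsDomain R] [UniqueFactorizationMonoid R]
    (b : ι → R) (hb : ∀ p, Prime p → ∃ j, ¬ p ∣ b j) (hb0 : ∃ j, b j ≠ 0) (x c : R)
    (h : ∀ j, x ∣ b j * c) : x ∣ c := by
  induction x using UniqueFactorizationMonoid.induction_on_prime generalizing c with
  | h₁ =>
    obtain ⟨j, hj⟩ := hb0
    have := zero_dvd_iff.1 (h j)
    rw [(mul_eq_zero.1 this).resolve_left hj]
  | h₂ x hx => exact hx.dvd
  | h₃ x p hx hp ih =>
    obtain ⟨j, hj⟩ := hb p hp
    have h1 : p ∣ c := (hp.dvd_or_dvd ((dvd_mul_right p x).trans (h j))).resolve_left hj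
    obtain ⟨c', rfl⟩ := h1
    refine mul_dvd_mul_left p (ih c' fun k => ?_)
    have := h k
    rw [mul_left_comm] at this
    exact (mul_dvd_mul_iff_left hp.ne_zero).1 this

end Pool.Agent.Q39.SP
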