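import Pool.Agent.Q39.POG.Defs

set_option autoImplicit false

/-!
# Definitions for the recognition of strictly plus-one generated arrangements
-/

namespace Pool.Agent.Q39.SP

open MvPolynomial Pool.Agent.Q39.POG

variable {K : Type} [Field K] {l n : ℕ}

/-- The defining polynomial `Q` of the arrangement. -/
noncomputable def defPoly (A : Fin n → Fin l → K) : MvPolynomial (Fin l) K :=
  ∏ i, linearForm (A i)

/-- The square matrix `M_i`: delete row `i` from the matrix `M` with entries
`M i j = θ_i (x_j)`. -/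
noncomputable def minorMatrix
    (θ : Fin (l + 1) → Derivation K (MvPolynomial (Fin l) K) (MvPolynomial (Fin l) K))
    (i : Fin (l + 1)) : Matrix (Fin l) (Fin l) (MvPolynomial (Fin l) K) :=
  Matrix.of fun r j => θ (i.succAbove r) (X j)

/-- `p ∈ S_{>0}`: `p` is homogeneous of some positive degree (the polynomial `0` is homogeneous of
every degree). -/
def IsPosHomogeneous (p : MvPolynomial (Fin l) K) : Prop :=
  ∃ k : ℕ, 1 ≤ k ∧ p.IsHomogeneous k

/-- The `f_i` are the coefficients of a relation of minimal degree between the `θ_i`: they have no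
nonconstant common divisor, that is, all their common divisors are units. -/
def IsMinimalDegreeRelation
    (θ : Fin (l + 1) → Derivation K (MvPolynomial (Fin l) K) (MvPolynomial (Fin l) K))
    (f : Fin (l + 1) → MvPolynomial (Fin l) K) : Prop :=
  (∑ i, f i • θ i = 0) ∧ ∀ h, (∀ i, h ∣ f i) → IsUnit h

/-- Condition (i): `A` is strictly plus-one generated; the `θ_i` are a minimal generating set of
`D(A)`, whose unique relation of minimal degree (up to scalars) is `∑ g_i θ_i = 0`; and the
coefficient of `θ_{l+1}` in it is a nonzero linear form. -/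
def CondI (A : Fin n → Fin l → K)
    (θ : Fin (l + 1) → Derivation K (MvPolynomial (Fin l) K) (MvPolynomial (Fin l) K))
    (g : Fin (l + 1) → MvPolynomial (Fin l) K) : Prop :=
  (∃ (e : Fin l → ℕ) (d : ℕ), IsStrictlyPlusOneGenerated A e d) ∧
  (Submodule.span (MvPolynomial (Fin l) K) (Set.range θ) = logDer A ∧
    ∀ i, θ i ∉ Submodule.span (MvPolynomial (Fin l) K) (θ '' {i}ᶜ)) ∧
  (IsMinimalDegreeRelation θ g ∧
    ∀ f, IsMinimalDegreeRelation θ f → ∃ c : K, f = fun i => C c * g i) ∧
  ∃ a : Fin l → K, a ≠ 0 ∧ g (Fin.last l) = linearForm a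

/-- Condition (ii): `g_{l+1} ∈ S_1 ∖ {0}`, `g_1, …, g_l ∈ S_{>0}`, and `g_1, …, g_l` have no
non-trivial common divisor modulo `g_{l+1}`: no `h ∈ S_{>0}` satisfies `g_i ∈ (h, g_{l+1})` for
all `i`. -/
def CondII (g : Fin (l + 1) → MvPolynomial (Fin l) K) : Prop :=
  (∃ a : Fin l → K, a ≠ 0 ∧ g (Fin.last l) = linearForm a) ∧
  (∀ i : Fin l, IsPosHomogeneous (g i.castSucc)) ∧
  ¬ ∃ h : MvPolynomial (Fin l) K, IsPosHomogeneous h ∧
    ∀ i : Fin l, g i.castSucc ∈ Ideal.span {h, g (Fin.last l)}

end Pool.Agent.Q39.SP
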