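import Pool.Agent.Q8.DU.Main

/-!
# Dubrovin's conjecture (first part) for Fano manifolds of large Lefschetz defect

The first part of Dubrovin's conjecture is stable under blow-ups, projective bundles and products in
the following strong form: the big quantum cohomology of `X` is semisimple if and only if `X` has a
full exceptional collection, if and only if `X` has no odd cohomology and `h^{p,q}(X) = 0` for `p ≠ q`.
Together with the theorem for Fano threefolds and with structure theorems for Fano manifolds this
settles the first part for several classes of Fano manifolds in dimensions four and five, and for the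
Fano manifolds of any dimension which are blow-ups in a point.
-/

universe u

namespace Pool.Agent.Q39.SP.LLD

open Pool.Agent.Q200.DB Pool.Agent.Q8.DU Pool.Agent.Q8.DU.FanoData

/-- **Dubrovin's conjecture for Fano manifolds of large Lefschetz defect.** Let `T` be the smooth
projective complex varieties with their big quantum cohomology (`hT`: known facts), and let
`Dubrovin X` be: `X` has semisimple quantum cohomology if and only if it has a full exceptional
collection, if and only if it has no odd cohomology and `h^{p,q} = 0` for `p ≠ q`.

1. `Dubrovin X` holds for all members of the class `Generated`.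
2. If it holds for `X` and `Z` then it holds for the blow-up of `X` along `Z`.
3. It holds for each Fano manifold of dimension `n` and Lefschetz defect at least three, if it holds
   for all Fano manifolds of dimension `n - 2`.
4. It holds for all Fano manifolds of dimension at most five and Lefschetz defect at least three; those
   of dimension four have semisimple quantum cohomology and a full exceptional collection.
5. It holds for all Fano manifolds, of any dimension, which are blow-ups in a point.
6. It holds for all Fano fourfolds of Picard number at least three which contain a prime divisor of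
   Picard number one. -/
theorem joined {T : FanoData.{u}} (hT : T.FanoFacts) :
    (∀ X : T.Var, T.Generated X → T.Dubrovin X) ∧
    (∀ (Z X X' : T.Var) (r : ℕ), T.Blow Z X X' r → T.Dubrovin X → T.Dubrovin Z →
      T.Dubrovin X') ∧
    (∀ X : T.Var, T.Fano X → 3 ≤ T.defect X →
      (∀ W : T.Var, T.Fano W → T.dim W + 2 = T.dim X → T.Dubrovin W) → T.Dubrovin X) ∧
    (∀ X : T.Var, T.Fano X → 3 ≤ T.defect X → T.dim X ≤ 5 →
      T.Dubrovin X ∧ (T.dim X = 4 → T.Semisimple X ∧ T.FEC X)) ∧
    (∀ Z X Y : T.Var, T.Fano X → T.dim Z = 0 → T.Blow Z Y X (T.dim X) → T.Dubrovin X) ∧
    ∀ X : T.Var, T.Fano X → T.dim X = 4 → T.PrimeOne X → 3 ≤ T.rho X → T.Dubrovin X :=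
  ⟨fun _ h => dubrovin_generated hT h,
    fun _ _ _ _ h hX hZ => dubrovin_blow hT h hX hZ,
    fun _ h hd hW => dubrovin_defect hT h hd hW,
    fun _ h hd h5 => ⟨dubrovin_defect_five hT h hd h5, fun h4 => both_defect hT h h4 hd⟩,
    fun _ _ _ h hZ hb => dubrovin_point_blow hT h hZ hb,
    fun _ h hd h1 h2 => dubrovin_prime_one hT h hd h1 h2⟩

end Pool.Agent.Q39.SP.LLD
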