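import Pool.Agent.Q39.SP.Gen

set_option autoImplicit false

/-!
# Recognition of strictly plus-one generated arrangements
-/

namespace Pool.Agent.Q39.SP

open MvPolynomial Pool.Agent.Q39.POG

variable {K : Type} [Field K] {l n : ℕ}

lemma minorMatrix_eq (θ : Fin (l + 1) → Der K l) (i : Fin (l + 1)) :
    minorMatrix θ i = cmat fun r => θ (i.succAbove r) := rfl

/-- the cofactors `g_i` -/
def IsCof (A : Fin n → Fin l → K) (θ : Fin (l + 1) → Der K l)
    (g : Fin (l + 1) → MvPolynomial (Fin l) K) : Prop :=
  ∀ i : Fin (l + 1), (-1) ^ ((i : ℕ) + 1) * (minorMatrix θ i).det = g i * defPoly A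

lemma exists_cof {A : Fin n → Fin l → K} (hA : IsArrangement A) {θ : Fin (l + 1) → Der K l}
    (hθ : ∀ i, θ i ∈ logDer A) : ∃ g, IsCof A θ g := by
  have : ∀ i : Fin (l + 1), ∃ q, (-1) ^ ((i : ℕ) + 1) * (minorMatrix θ i).det = q * defPoly A := by
    intro i
    obtain ⟨q, hq⟩ := defPoly_dvd_det hA (fun r => θ (i.succAbove r)) fun r => hθ _
    exact ⟨(-1) ^ ((i : ℕ) + 1) * q, by rw [minorMatrix_eq, hq]; ring⟩
  choose g hg using this
  exact ⟨g, hg⟩

lemma cof_relation {A : Fin n → Fin l → K} (hA : IsArrangement A) {θ : Fin (l + 1) → Der K l}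
    {g : Fin (l + 1) → MvPolynomial (Fin l) K} (hg : IsCof A θ g) : ∑ i, g i • θ i = 0 := by
  have h1 := minors_relation θ
  have h2 : defPoly A • ∑ i, g i • θ i = 0 := by
    rw [← h1, Finset.smul_sum]
    refine Finset.sum_congr rfl fun i _ => ?_
    rw [smul_smul, mul_comm, ← hg i, minorMatrix_eq]
  apply MvPolynomial.derivation_ext
  intro j
  have h3 := congrArg (fun d : Der K l => d (X j)) h2
  simp only [Derivation.smul_apply, smul_eq_mul, Derivation.coe_zero, Pi.zero_apply] at h3
  exact (mul_eq_zero.1 h3).resolve_left (defPoly_ne_zero hA)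

lemma det_ne_of_cof {A : Fin n → Fin l → K} (hA : IsArrangement A) {θ : Fin (l + 1) → Der K l}
    {g : Fin (l + 1) → MvPolynomial (Fin l) K} (hg : IsCof A θ g) {i : Fin (l + 1)}
    (hi : g i ≠ 0) : (cmat fun r => θ (i.succAbove r)).det ≠ 0 := by
  intro h
  have := hg i
  rw [minorMatrix_eq, h, mul_zero] at this
  exact hi ((mul_eq_zero.1 this.symm).resolve_right (defPoly_ne_zero hA))

/-- if `g_{l+1} = α` is a prime that does not divide all other `g_i`, every relation is a multiple of `g` -/
lemma relation_mul {A : Fin n → Fin l → K} (hA : IsArrangement A) {θ : Fin (l + 1) → Der K l}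
    {g : Fin (l + 1) → MvPolynomial (Fin l) K} (hg : IsCof A θ g)
    (hp : Prime (g (Fin.last l))) (hnd : ∃ i, ¬ g (Fin.last l) ∣ g i)
    {f : Fin (l + 1) → MvPolynomial (Fin l) K} (hf : ∑ i, f i • θ i = 0) :
    ∃ c, ∀ i, f i = c * g i := by
  have hdet := det_ne_of_cof hA hg hp.ne_zero
  have h0 := cof_relation hA hg
  have hcross : ∀ i : Fin l, f (Fin.last l) * g i.castSucc = g (Fin.last l) * f i.castSucc := by
    have h1 : ∑ i : Fin l, (f (Fin.last l) * g i.castSucc - g (Fin.last l) * f i.castSucc) •
        θ i.castSucc = 0 := by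
      have e1 : f (Fin.last l) • ∑ i, g i • θ i - g (Fin.last l) • ∑ i, f i • θ i = 0 := by
        rw [h0, hf, smul_zero, smul_zero, sub_zero]
      rw [Fin.sum_univ_castSucc, Fin.sum_univ_castSucc, smul_add, smul_add, Finset.smul_sum,
        Finset.smul_sum] at e1
      simp only [der_sub_smul, Finset.sum_sub_distrib, mul_smul]
      rw [← e1]
      have : f (Fin.last l) • g (Fin.last l) • θ (Fin.last l) =
          g (Fin.last l) • f (Fin.last l) • θ (Fin.last l) := smul_comm _ _ _
      rw [this]
      abel
    have h2 := indep_of_det (η := fun r => θ ((Fin.last l).succAbove r)) hdet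
      (f := fun i => f (Fin.last l) * g i.castSucc - g (Fin.last l) * f i.castSucc) (by
        simpa using h1)
    intro i
    exact sub_eq_zero.1 (congrFun h2 i)
  obtain ⟨i0, hi0⟩ := hnd
  have hlast : g (Fin.last l) ∣ f (Fin.last l) := by
    induction i0 using Fin.lastCases with
    | last => exact absurd dvd_rfl hi0
    | cast i0 =>
      exact (hp.dvd_or_dvd ⟨_, hcross i0⟩).resolve_right hi0
  obtain ⟨c, hc⟩ := hlast
  refine ⟨c, fun i => ?_⟩
  induction i using Fin.lastCases with
  | last => rw [hc, mul_comm]
  | cast i =>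
    have := hcross i
    rw [hc] at this
    have h3 : g (Fin.last l) * f i.castSucc = g (Fin.last l) * (c * g i.castSucc) := by
      rw [← this]; ring
    exact mul_left_cancel₀ hp.ne_zero h3

/-- Cramer: `g_i ψ` is a combination of the `θ_k` with `k ≠ i`. -/
lemma cramer {A : Fin n → Fin l → K} (hA : IsArrangement A) {θ : Fin (l + 1) → Der K l}
    (hθ : ∀ i, θ i ∈ logDer A) {g : Fin (l + 1) → MvPolynomial (Fin l) K} (hg : IsCof A θ g)
    (i : Fin (l + 1)) {ψ : Der K l} (hψ : ψ ∈ logDer A) :
    ∃ w : Fin (l + 1) → MvPolynomial (Fin l) K, w i = 0 ∧ g i • ψ = ∑ k, w k • θ k := by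
  classical
  obtain ⟨u, hu⟩ := exists_cof hA (θ := Function.update θ i ψ) (by
    intro k
    by_cases hk : k = i
    · subst hk; rw [Function.update_self]; exact hψ
    · rw [Function.update_of_ne hk]; exact hθ k)
  have h1 : u i = g i := by
    have e1 := hu i
    have e2 := hg i
    have e3 : minorMatrix (Function.update θ i ψ) i = minorMatrix θ i := by
      ext r j
      simp only [minorMatrix, Matrix.of_apply]
      rw [Function.update_of_ne (Fin.succAbove_ne i r)]
    rw [e3, e2] at e1
    exact (mul_right_cancel₀ (defPoly_ne_zero hA) e1).symm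
  have h2 := cof_relation hA hu
  refine ⟨fun k => if k = i then 0 else - u k, by simp, ?_⟩
  rw [← Finset.add_sum_erase _ _ (Finset.mem_univ i), Function.update_self, h1] at h2
  rw [← Finset.add_sum_erase _ _ (Finset.mem_univ i)]
  simp only [if_true, zero_smul, zero_add]
  have h3 : ∑ k ∈ Finset.univ.erase i, (if k = i then 0 else - u k) • θ k =
      -∑ k ∈ Finset.univ.erase i, u k • Function.update θ i ψ k := by
    rw [← Finset.sum_neg_distrib]
    refine Finset.sum_congr rfl fun k hk => ?_
    have hk' := Finset.ne_of_mem_erase hk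
    rw [if_neg hk', Function.update_of_ne hk', der_neg_smul]
  rw [h3]
  exact eq_neg_of_add_eq_zero_left h2

lemma mem_span_pair' {h α p : MvPolynomial (Fin l) K} :
    p ∈ Ideal.span {h, α} ↔ ∃ a b, a * h + b * α = p := Ideal.mem_span_pair

/-- under (ii), `D(A)` is generated by the `θ_i` -/
theorem span_of_condII {A : Fin n → Fin l → K} (hA : IsArrangement A)
    {θ : Fin (l + 1) → Der K l} (hθ : ∀ i, θ i ∈ logDer A)
    {g : Fin (l + 1) → MvPolynomial (Fin l) K} (hg : IsCof A θ g) (hII : CondII g)
    {ψ : Der K l} (hψ : ψ ∈ logDer A) :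
    ψ ∈ Submodule.span (MvPolynomial (Fin l) K) (Set.range θ) := by
  obtain ⟨⟨a, ha, hlast⟩, hpos, hno⟩ := hII
  obtain ⟨e, he⟩ := exists_dual ha
  have hα : Prime (g (Fin.last l)) := by rw [hlast]; exact linearForm_prime ha
  have hdvd : ∀ F, g (Fin.last l) ∣ F ↔ rst a e F = 0 := by
    intro F; rw [hlast]; exact dvd_iff_rst he F
  -- not all `g_i` are divisible by `α`
  have hnd : ∃ i0 : Fin l, ¬ g (Fin.last l) ∣ g i0.castSucc := by
    by_contra hcon
    push Not at hcon
    refine hno ⟨g (Fin.last l), ⟨1, le_rfl, by rw [hlast]; exact linearForm_homog a⟩, fun i => ?_⟩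
    rw [Set.pair_eq_singleton, Ideal.mem_span_singleton]
    exact hcon i
  have hprime : ∀ p, Prime p → ∃ j : Fin l, ¬ p ∣ rst a e (g j.castSucc) := by
    intro p hp
    by_contra hcon
    push Not at hcon
    obtain ⟨i0, hi0⟩ := hnd
    have hne : rst a e (g i0.castSucc) ≠ 0 := fun h0 => hi0 ((hdvd _).2 h0)
    obtain ⟨k, _, hk⟩ := hpos i0
    have hph : p.IsHomogeneous p.totalDegree :=
      Pool.Agent.Chud.homog_of_dvd (rst_homog a e hk) hne (hcon i0)
    refine hno ⟨p, ⟨p.totalDegree, ?_, hph⟩, fun i => ?_⟩
    · by_contra h1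
      have h2 : p.totalDegree = 0 := by omega
      rw [totalDegree_eq_zero_iff_eq_C] at h2
      have h3 : coeff 0 p ≠ 0 := by
        intro h3
        rw [h3, map_zero] at h2
        exact hp.ne_zero h2
      exact hp.not_isUnit (by rw [h2]; exact (IsUnit.mk0 _ h3).map C)
    · obtain ⟨u, hu⟩ := hcon i
      obtain ⟨v, hv⟩ := dvd_sub_rst a e (g i.castSucc)
      rw [Ideal.mem_span_pair]
      refine ⟨u, v, ?_⟩
      rw [hlast]
      linear_combination -hu - hv
  obtain ⟨i0, hi0⟩ := hnd
  obtain ⟨h, hhl, hh⟩ := cramer hA hθ hg (Fin.last l) hψ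
  -- proportionality modulo `α`
  have hprop : ∀ j : Fin l, g (Fin.last l) ∣
      g i0.castSucc * h j.castSucc - h i0.castSucc * g j.castSucc := by
    intro j
    obtain ⟨w, hwi, hw⟩ := cramer hA hθ hg i0.castSucc hψ
    have hrel : ∑ k, (g i0.castSucc * h k - g (Fin.last l) * w k) • θ k = 0 := by
      have : g i0.castSucc • ∑ k, h k • θ k = g (Fin.last l) • ∑ k, w k • θ k := by
        rw [← hh, ← hw, smul_comm]
      simp only [der_sub_smul, mul_smul, Finset.sum_sub_distrib, ← Finset.smul_sum]
      rw [this, sub_self]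
    obtain ⟨c, hc⟩ := relation_mul hA hg hα ⟨_, hi0⟩ hrel
    have h1 := hc i0.castSucc
    rw [hwi, mul_zero, sub_zero] at h1
    have hg0 : g i0.castSucc ≠ 0 := fun h0 => hi0 (by rw [h0]; exact dvd_zero _)
    have h2 : c = h i0.castSucc := by
      have : g i0.castSucc * c = g i0.castSucc * h i0.castSucc := by rw [h1]; ring
      exact mul_left_cancel₀ hg0 this
    have h3 := hc j.castSucc
    rw [h2] at h3
    exact ⟨w j.castSucc, by linear_combination h3⟩
  -- the common factor
  have hprop' : ∀ j : Fin l, rst a e (g i0.castSucc) * rst a e (h j.castSucc) =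
      rst a e (h i0.castSucc) * rst a e (g j.castSucc) := by
    intro j
    have := (hdvd _).1 (hprop j)
    rw [map_sub, map_mul, map_mul, sub_eq_zero] at this
    exact this
  have hne0 : rst a e (g i0.castSucc) ≠ 0 := fun h0 => hi0 ((hdvd _).2 h0)
  obtain ⟨k, hk⟩ := dvd_of_dvd_mul (fun j : Fin l => rst a e (g j.castSucc)) hprime
    ⟨i0, hne0⟩ (rst a e (g i0.castSucc)) (rst a e (h i0.castSucc)) (fun j => by
      rw [mul_comm (rst a e (g j.castSucc)), ← hprop' j]
      exact dvd_mul_right _ _)
  have hk2 : ∀ j : Fin l, rst a e (h j.castSucc) = k * rst a e (g j.castSucc) := by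
    intro j
    have := hprop' j
    rw [hk] at this
    have h4 : rst a e (g i0.castSucc) * rst a e (h j.castSucc) =
        rst a e (g i0.castSucc) * (k * rst a e (g j.castSucc)) := by
      rw [this]; ring
    exact mul_left_cancel₀ hne0 h4
  have hk3 : ∀ j : Fin l, g (Fin.last l) ∣ h j.castSucc - rst a e k * g j.castSucc := by
    intro j
    rw [hdvd, map_sub, map_mul, rst_rst he]
    have := congrArg (rst a e) (hk2 j)
    rw [rst_rst he, map_mul, rst_rst he] at this
    rw [this, sub_self]
  choose u hu using hk3
  -- conclusion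
  have hrel := cof_relation hA hg
  have hfin : ψ + rst a e k • θ (Fin.last l) = ∑ j : Fin l, u j • θ j.castSucc := by
    have e1 : g (Fin.last l) • (ψ + rst a e k • θ (Fin.last l)) =
        g (Fin.last l) • ∑ j : Fin l, u j • θ j.castSucc := by
      rw [smul_add, hh, Fin.sum_univ_castSucc, hhl, zero_smul, add_zero, Finset.smul_sum]
      have e2 : g (Fin.last l) • θ (Fin.last l) = -∑ j : Fin l, g j.castSucc • θ j.castSucc := by
        rw [Fin.sum_univ_castSucc, add_comm] at hrel
        exact eq_neg_of_add_eq_zero_left hrel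
      rw [smul_comm, e2, smul_neg, Finset.smul_sum, ← sub_eq_add_neg, ← Finset.sum_sub_distrib]
      refine Finset.sum_congr rfl fun j _ => ?_
      rw [smul_smul, smul_smul, ← der_sub_smul, hu j]
    apply MvPolynomial.derivation_ext
    intro j
    have h3 := congrArg (fun d : Der K l => d (X j)) e1
    simp only [Derivation.smul_apply, smul_eq_mul] at h3
    exact mul_left_cancel₀ hα.ne_zero h3
  have : ψ = ∑ j : Fin l, u j • θ j.castSucc - rst a e k • θ (Fin.last l) := by
    rw [← hfin]; abel
  rw [this]
  refine Submodule.sub_mem _ (Submodule.sum_mem _ fun j _ => ?_) ?_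
  · exact Submodule.smul_mem _ _ (Submodule.subset_span ⟨_, rfl⟩)
  · exact Submodule.smul_mem _ _ (Submodule.subset_span ⟨_, rfl⟩)

/-- degrees: if `g_i ≠ 0` then `g_i` is homogeneous and its degree plus the number of hyperplanes is the sum
of the degrees of the other derivations -/
lemma cof_degree {A : Fin n → Fin l → K} (hA : IsArrangement A) {θ : Fin (l + 1) → Der K l}
    {g : Fin (l + 1) → MvPolynomial (Fin l) K} (hg : IsCof A θ g) (d : Fin (l + 1) → ℕ)
    (hd : ∀ i, IsHomogeneousDer (θ i) (d i)) (i : Fin (l + 1)) (hi : g i ≠ 0) :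
    ∃ k, (g i).IsHomogeneous k ∧ k + n + d i = ∑ j, d j := by
  have h1 := det_homog (fun r => θ (i.succAbove r)) (fun r => d (i.succAbove r)) fun r => hd _
  have h2 := hg i
  rw [minorMatrix_eq] at h2
  have h3 : ((-1) ^ ((i : ℕ) + 1) * (cmat fun r => θ (i.succAbove r)).det).IsHomogeneous
      (∑ r, d (i.succAbove r)) := by
    have : ((-1 : MvPolynomial (Fin l) K) ^ ((i : ℕ) + 1)).IsHomogeneous 0 := by
      have e : (-1 : MvPolynomial (Fin l) K) = C (-1) := by simp
      rw [e, ← map_pow]
      exact isHomogeneous_C _ _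
    have := this.mul h1
    rwa [zero_add] at this
  have h4 : g i * defPoly A ≠ 0 := mul_ne_zero hi (defPoly_ne_zero hA)
  have h5 : (g i).IsHomogeneous (g i).totalDegree := by
    rw [h2] at h3
    exact Pool.Agent.Chud.homog_of_dvd h3 h4 (dvd_mul_right _ _)
  refine ⟨(g i).totalDegree, h5, ?_⟩
  have h6 := h5.mul (defPoly_homog A)
  rw [h2] at h3
  have h7 := h6.inj_right h3 h4
  rw [h7, Fin.sum_univ_succAbove _ i]
  ring

/-- all nonconstant common divisors are excluded -/
lemma primitive_of {α : MvPolynomial (Fin l) K} (hα : Prime α)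
    {g : Fin (l + 1) → MvPolynomial (Fin l) K} (hl : g (Fin.last l) = α)
    (hnd : ∃ i, ¬ α ∣ g i) (h : MvPolynomial (Fin l) K) (hh : ∀ i, h ∣ g i) : IsUnit h := by
  obtain ⟨i, hi⟩ := hnd
  have h1 := hh (Fin.last l)
  rw [hl] at h1
  obtain ⟨u, hu⟩ := h1
  rcases hα.irreducible.isUnit_or_isUnit hu with h2 | h2
  · exact h2
  · exfalso
    apply hi
    refine Dvd.dvd.trans ?_ (hh i)
    obtain ⟨v, hv⟩ := h2.exists_right_inv
    exact ⟨v, by rw [hu, mul_assoc, hv, mul_one]⟩

/-- a generating set with relation module generated by non-units is minimal -/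
lemma minimal_of {θ : Fin (l + 1) → Der K l} {g : Fin (l + 1) → MvPolynomial (Fin l) K}
    (hall : ∀ f : Fin (l + 1) → MvPolynomial (Fin l) K, ∑ i, f i • θ i = 0 →
      ∃ c, ∀ i, f i = c * g i) (i : Fin (l + 1)) (hi : ¬ IsUnit (g i)) :
    θ i ∉ Submodule.span (MvPolynomial (Fin l) K) (θ '' {i}ᶜ) := by
  classical
  intro hmem
  rw [Submodule.mem_span_image_iff_exists_fun] at hmem
  obtain ⟨t, ht, c, hc⟩ := hmem
  have h1 : ∑ k, ((if h : k ∈ t then c ⟨k, h⟩ else 0) - if k = i then 1 else 0) • θ k = 0 := by
    simp only [der_sub_smul, Finset.sum_sub_distrib, ite_smul, one_smul, zero_smul,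
      Finset.sum_ite_eq', Finset.mem_univ, if_true]
    rw [sub_eq_zero, ← hc]
    have e1 : ∑ k, (if h : k ∈ t then c ⟨k, h⟩ else 0) • θ k =
        ∑ k ∈ t, (if h : k ∈ t then c ⟨k, h⟩ else 0) • θ k := by
      symm
      apply Finset.sum_subset (Finset.subset_univ t)
      intro k _ hk
      rw [dif_neg hk, zero_smul]
    rw [e1, ← Finset.sum_coe_sort t]
    refine Finset.sum_congr rfl fun k _ => ?_
    rw [dif_pos k.2]
  obtain ⟨b, hb⟩ := hall _ h1
  have h2 := hb i
  have hit : i ∉ t := fun h => ht h rfl
  rw [dif_neg hit, if_pos rfl, zero_sub] at h2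
  apply hi
  have : g i * (-b) = 1 := by linear_combination h2
  exact IsUnit.of_mul_eq_one _ this

/-- **The equivalence.** -/
theorem condI_iff_condII {A : Fin n → Fin l → K} (hA : IsArrangement A)
    {θ : Fin (l + 1) → Der K l} (hθ : ∀ i, θ i ∈ logDer A)
    (hhom : ∀ i, ∃ p, IsHomogeneousDer (θ i) p)
    {g : Fin (l + 1) → MvPolynomial (Fin l) K} (hg : IsCof A θ g) :
    CondI A θ g ↔ CondII g := by
  choose d hd using hhom
  have hunit : ∀ p : MvPolynomial (Fin l) K, IsPosHomogeneous p → ¬ IsUnit p := by
    rintro p ⟨k, hk, hp⟩ hu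
    have h1 : p ≠ 0 := hu.ne_zero
    have h2 := hp.totalDegree h1
    have h3 := (MvPolynomial.isUnit_iff_totalDegree_of_isReduced.mp hu).2
    omega
  constructor
  · rintro ⟨_, ⟨hspan, hmin⟩, ⟨⟨hrel, hprim⟩, _⟩, ⟨a, ha, hlast⟩⟩
    have hα : Prime (g (Fin.last l)) := by rw [hlast]; exact linearForm_prime ha
    have hnd : ∃ i, ¬ g (Fin.last l) ∣ g i := by
      by_contra hcon
      push Not at hcon
      exact hα.not_isUnit (hprim _ hcon)
    have hall := fun (f : Fin (l + 1) → MvPolynomial (Fin l) K) (hf : ∑ i, f i • θ i = 0) =>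
      relation_mul hA hg hα hnd hf
    refine ⟨⟨a, ha, hlast⟩, fun i => ?_, ?_⟩
    · by_cases h0 : g i.castSucc = 0
      · exact ⟨1, le_rfl, by rw [h0]; exact isHomogeneous_zero _ _ _⟩
      · obtain ⟨k, hk, _⟩ := cof_degree hA hg d hd i.castSucc h0
        refine ⟨k, ?_, hk⟩
        by_contra hk0
        have hk1 : k = 0 := by omega
        subst hk1
        -- `g_i` is a nonzero constant, so `θ_i` is superfluous
        have hC : g i.castSucc = C (coeff 0 (g i.castSucc)) :=
          totalDegree_eq_zero_iff_eq_C.1 (Nat.le_zero.1 hk.totalDegree_le)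
        have hc0 : coeff 0 (g i.castSucc) ≠ 0 := by
          intro h
          rw [h, map_zero] at hC
          exact h0 hC
        apply hmin i.castSucc
        have h1 := hrel
        rw [← Finset.add_sum_erase _ _ (Finset.mem_univ i.castSucc)] at h1
        have h2 : θ i.castSucc = (C (coeff 0 (g i.castSucc))⁻¹ : MvPolynomial (Fin l) K) •
            (g i.castSucc • θ i.castSucc) := by
          rw [smul_smul]
          conv_rhs => rw [hC]
          rw [coeff_C, if_pos rfl, ← map_mul, inv_mul_cancel₀ hc0, map_one, one_smul]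
        rw [h2, eq_neg_of_add_eq_zero_left h1]
        refine Submodule.smul_mem _ _ (Submodule.neg_mem _ (Submodule.sum_mem _ fun k hk => ?_))
        exact Submodule.smul_mem _ _
          (Submodule.subset_span ⟨k, Finset.ne_of_mem_erase hk, rfl⟩)
    · rintro ⟨h, hpos, hmem⟩
      simp only [Ideal.mem_span_pair] at hmem
      choose x y hxy using hmem
      by_cases hαh : g (Fin.last l) ∣ h
      · obtain ⟨i, hi⟩ := hnd
        apply hi
        induction i using Fin.lastCases with
        | last => exact dvd_rfl
        | cast i =>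
          rw [← hxy i]
          exact dvd_add (dvd_mul_of_dvd_right hαh _) (dvd_mul_left _ _)
      · -- the derivation `(∑ x_i θ_i) / α`
        have e1 : h • ∑ i : Fin l, x i • θ i.castSucc =
            -(g (Fin.last l) • (∑ i : Fin l, y i • θ i.castSucc + θ (Fin.last l))) := by
          rw [eq_neg_iff_add_eq_zero, ← hrel, Fin.sum_univ_castSucc, smul_add, Finset.smul_sum,
            Finset.smul_sum, ← add_assoc, ← Finset.sum_add_distrib]
          congr 1
          refine Finset.sum_congr rfl fun i _ => ?_
          rw [smul_smul, smul_smul, ← add_smul, ← hxy i]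
          congr 1
          ring
        have e2 : ∀ F, h * (∑ i : Fin l, x i • θ i.castSucc) F = -(g (Fin.last l) *
            (∑ i : Fin l, y i • θ i.castSucc + θ (Fin.last l)) F) := by
          intro F
          have := congrArg (fun D : Der K l => D F) e1
          simpa only [Derivation.smul_apply, Derivation.neg_apply, smul_eq_mul] using this
        have e3 : ∀ F, g (Fin.last l) ∣ (∑ i : Fin l, x i • θ i.castSucc) F := by
          intro F
          have : g (Fin.last l) ∣ h * (∑ i : Fin l, x i • θ i.castSucc) F := by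
            rw [e2 F]
            exact (dvd_mul_right _ _).neg_right
          exact (hα.dvd_or_dvd this).resolve_left hαh
        choose z hz using fun j : Fin l => e3 (X j)
        set ψ : Der K l := mkDerivation K z with hψdef
        have hψ1 : g (Fin.last l) • ψ = ∑ i : Fin l, x i • θ i.castSucc := by
          apply MvPolynomial.derivation_ext
          intro j
          rw [Derivation.smul_apply, smul_eq_mul, hψdef, mkDerivation_X, hz j]
        have hψ2 : h • ψ = -(∑ i : Fin l, y i • θ i.castSucc + θ (Fin.last l)) := by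
          apply MvPolynomial.derivation_ext
          intro j
          have h3 : g (Fin.last l) * (h • ψ) (X j) = g (Fin.last l) *
              (-(∑ i : Fin l, y i • θ i.castSucc + θ (Fin.last l))) (X j) := by
            have h4 := congrArg (fun D : Der K l => D (X j)) hψ1
            simp only [Derivation.smul_apply, smul_eq_mul] at h4
            rw [Derivation.smul_apply, smul_eq_mul, Derivation.neg_apply, mul_left_comm, h4,
              e2 (X j)]
            ring
          exact mul_left_cancel₀ hα.ne_zero h3
        have hψ : ψ ∈ logDer A := by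
          intro i
          have m1 : linearForm (A i) ∣ g (Fin.last l) * ψ (linearForm (A i)) := by
            have h4 := congrArg (fun D : Der K l => D (linearForm (A i))) hψ1
            simp only [Derivation.smul_apply, smul_eq_mul] at h4
            rw [h4, sum_smul_apply]
            exact Finset.dvd_sum fun k _ => dvd_mul_of_dvd_right (hθ _ i) _
          have m2 : linearForm (A i) ∣ h * ψ (linearForm (A i)) := by
            have h4 := congrArg (fun D : Der K l => D (linearForm (A i))) hψ2
            simp only [Derivation.smul_apply, smul_eq_mul, Derivation.neg_apply,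
              Derivation.add_apply] at h4
            rw [h4, sum_smul_apply]
            exact (dvd_add (Finset.dvd_sum fun k _ => dvd_mul_of_dvd_right (hθ _ i) _)
              (hθ _ i)).neg_right
          by_contra hcon
          have hp := linearForm_prime (hA.1 i)
          have m3 := (hp.dvd_or_dvd m1).resolve_right hcon
          have m4 := (hp.dvd_or_dvd m2).resolve_right hcon
          rw [hlast] at m3
          obtain ⟨c, hc⟩ := eq_smul_of_dvd (hA.1 i) m3
          have hc0 : c ≠ 0 := by
            rintro rfl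
            exact ha (by rw [hc, zero_smul])
          apply hαh
          refine Dvd.dvd.trans ?_ m4
          rw [hlast, hc, linearForm_smul]
          refine ⟨C c⁻¹, ?_⟩
          have : (C c * C c⁻¹ : MvPolynomial (Fin l) K) = 1 := by
            rw [← map_mul, mul_inv_cancel₀ hc0, map_one]
          linear_combination (-linearForm (A i)) * this
        rw [← hspan] at hψ
        obtain ⟨c, hc⟩ := (Submodule.mem_span_range_iff_exists_fun _).1 hψ
        have hrel2 : ∑ i, (h * c i + Fin.lastCases 1 y i) • θ i = 0 := by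
          have : h • ψ + (∑ i : Fin l, y i • θ i.castSucc + θ (Fin.last l)) = 0 := by
            rw [hψ2]; abel
          rw [← this, ← hc, Finset.smul_sum]
          simp only [add_smul, Finset.sum_add_distrib, mul_smul]
          congr 1
          rw [Fin.sum_univ_castSucc]
          simp
        obtain ⟨b, hb⟩ := hall _ hrel2
        have h5 := hb (Fin.last l)
        simp only [Fin.lastCases_last] at h5
        have h6 := congrArg constantCoeff h5
        obtain ⟨k, hk, hhk⟩ := hpos
        have h7 : coeff 0 h = 0 := by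
          by_contra hne
          have := hhk hne
          simp at this
          omega
        have h8 : coeff 0 (g (Fin.last l)) = 0 := by
          rw [hlast]
          by_contra hne
          have := linearForm_homog a hne
          simp at this
        have h7' : constantCoeff h = 0 := by rw [constantCoeff_eq]; exact h7
        have h8' : constantCoeff (g (Fin.last l)) = 0 := by rw [constantCoeff_eq]; exact h8
        rw [map_add, map_mul, map_mul, map_one, h7', h8'] at h6
        simp at h6
  · intro hII
    have hII' := hII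
    obtain ⟨⟨a, ha, hlast⟩, hpos, hno⟩ := hII'
    have hα : Prime (g (Fin.last l)) := by rw [hlast]; exact linearForm_prime ha
    have hnd : ∃ i, ¬ g (Fin.last l) ∣ g i := by
      by_contra hcon
      push Not at hcon
      refine hno ⟨g (Fin.last l), ⟨1, le_rfl, by rw [hlast]; exact linearForm_homog a⟩,
        fun i => ?_⟩
      rw [Set.pair_eq_singleton, Ideal.mem_span_singleton]
      exact hcon _
    have hrel := cof_relation hA hg
    have hall := fun (f : Fin (l + 1) → MvPolynomial (Fin l) K) (hf : ∑ i, f i • θ i = 0) =>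
      relation_mul hA hg hα hnd hf
    have hspan : Submodule.span (MvPolynomial (Fin l) K) (Set.range θ) = logDer A := by
      apply le_antisymm
      · rw [Submodule.span_le]
        rintro _ ⟨i, rfl⟩
        exact hθ i
      · intro ψ hψ
        exact span_of_condII hA hθ hg hII hψ
    have hdeg : ∀ i, g i ≠ 0 → ∃ k, (g i).IsHomogeneous k ∧ d i + k = d (Fin.last l) + 1 := by
      intro i hi
      obtain ⟨k, hk, hk2⟩ := cof_degree hA hg d hd i hi
      obtain ⟨k', hk', hk2'⟩ := cof_degree hA hg d hd (Fin.last l) hα.ne_zero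
      have : k' = 1 := by
        have h1 : (g (Fin.last l)).IsHomogeneous 1 := by rw [hlast]; exact linearForm_homog a
        exact hk'.inj_right h1 hα.ne_zero
      exact ⟨k, hk, by omega⟩
    refine ⟨⟨fun i => d i.castSucc, d (Fin.last l), a, ha, fun i => θ i.castSucc,
      θ (Fin.last l), fun i => g i.castSucc, fun i => hd _, hd _, fun i => ?_, ?_, ?_, ?_⟩,
      ⟨hspan, fun i => ?_⟩, ⟨⟨hrel, primitive_of hα rfl hnd⟩, fun f hf => ?_⟩, ⟨a, ha, hlast⟩⟩
    · by_cases h0 : g i.castSucc = 0
      · exact Or.inl h0
      · right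
        obtain ⟨k, hk, hk2⟩ := hdeg _ h0
        refine ⟨k, ?_, hk2, hk⟩
        obtain ⟨k', hk', hk''⟩ := hpos i
        have := hk.inj_right hk'' h0
        omega
    · rintro ⟨h0, _⟩
      exact ha h0
    · rw [← hspan]
      congr 1
      ext D
      constructor
      · rintro (rfl | ⟨i, rfl⟩)
        · exact ⟨_, rfl⟩
        · exact ⟨_, rfl⟩
      · rintro ⟨i, rfl⟩
        induction i using Fin.lastCases with
        | last => exact Or.inl rfl
        | cast i => exact Or.inr ⟨i, rfl⟩
    · intro f k
      constructor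
      · intro hf
        obtain ⟨c, hc⟩ := hall (Fin.lastCases k f) (by
          rw [Fin.sum_univ_castSucc]
          simpa using hf)
        refine ⟨c, fun i => ?_, ?_⟩
        · have := hc i.castSucc
          simpa using this
        · have := hc (Fin.last l)
          rw [hlast] at this
          simpa using this
      · rintro ⟨c, hc1, hc2⟩
        have : c • ∑ i, g i • θ i = 0 := by rw [hrel, smul_zero]
        rw [← this, Fin.sum_univ_castSucc, smul_add, Finset.smul_sum]
        congr 1
        · refine Finset.sum_congr rfl fun i _ => ?_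
          rw [smul_smul, hc1 i]
        · rw [smul_smul, hc2, hlast]
    · apply minimal_of hall
      induction i using Fin.lastCases with
      | last => exact hα.not_isUnit
      | cast i => exact hunit _ (hpos i)
    · obtain ⟨c, hc⟩ := hall f hf.1
      have hcu : IsUnit c := hf.2 c fun i => ⟨g i, hc i⟩
      obtain ⟨h1, h2⟩ := MvPolynomial.isUnit_iff_totalDegree_of_isReduced.mp hcu
      refine ⟨coeff 0 c, ?_⟩
      funext i
      rw [hc i]
      congr 1
      exact totalDegree_eq_zero_iff_eq_C.1 h2

end Pool.Agent.Q39.SP
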