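import Pool.Agent.Q107.Hunt.Ping6

/-! # Hybrids of lattices with wide collars

`herm` is the standard Hermitian form of signature `(n,1)` on `ℂ^(n+1)`, `suOf n W` the subgroup
of `SU(n,1)` acting trivially on `W^⊥`, i.e. `SU(W)`; `act g v = g v`.

`Config n W e`: `W 0`, `W 1` are hyperplanes with a common negative vector, so that
`W₃ = W 0 ∩ W 1` has signature `(n-2,1)`, and `e i` is a unit vector of `W i` orthogonal to `W₃`.
Hence `|⟨e 0, e 1⟩| = cos φ`, `φ` the angle of the hyperplanes.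

`Γ i` is a discrete subgroup of `SU(W i)`, e.g. an arithmetic lattice. For `g ∈ Γ i` the number
`|⟨g e_i, e_i⟩|` is `cosh(ρ/2)`, `ρ` the distance of the complex hyperbolic subspaces of `W₃` and
of `g W₃`, when it is at least one: it measures the width of the collar of `W₃` in `Γ i \ H(W i)`.

`DiscreteAmalgam Γ`: the natural homomorphism `amalgMap Γ` from the amalgamated product of `Γ 0`
and `Γ 1` along `Γ 0 ∩ Γ 1` to `SL(n+1, ℂ)` is injective, and its image, the hybrid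
`⟨Γ 0, Γ 1⟩ = ⨆ i, Γ i`, is discrete.

The theorem.

(a) Let `ψ 0, ψ 1 > 0`, `ψ 0 + ψ 1 ≤ φ`, and suppose `|⟨g e_i, e_i⟩| ≥ (1 + cos² ψ_i) / sin² ψ_i`
for all `g ∈ Γ i` outside `Γ 0 ∩ Γ 1`, `i = 0, 1`. Then `DiscreteAmalgam Γ`, and if
`ψ 0 + ψ 1 < φ`, then the hybrid is not a lattice of `SU(n,1)`.

(b) Let `Γ i` be an arithmetic lattice of the first kind (`IsArithFK`) of `SU(W i)`, given by an
anisotropic Hermitian form `X i` over a CM field `E i` for which `W₃` is rational, `i = 0, 1`. Then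
there are subgroups `Γ' i` of finite index in `Γ i`, containing `Γ 0 ∩ Γ 1`, such that for all
`Δ i ≤ Γ' i` with `Δ 0 ∩ SU(W₃) = Δ 1 ∩ SU(W₃) = Δ 0 ∩ Δ 1` the hybrid of `Δ 0`, `Δ 1` is a
discrete amalgam and not a lattice of `SU(n,1)`.
-/

namespace Pool.Agent.Q39.SP.WC

open Pool.Agent.Q107.Hunt Matrix

theorem joined (n : ℕ) (W : Fin 2 → Submodule ℂ (Fin (n + 1) → ℂ))
    (e : Fin 2 → Fin (n + 1) → ℂ) (hWe : Config n W e) :
    (∀ (Γ : Fin 2 → Subgroup (SpecialLinearGroup (Fin (n + 1)) ℂ)) (φ : ℝ) (ψ : Fin 2 → ℝ),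
      ‖herm (e 0) (e 1)‖ = Real.cos φ → φ ≤ Real.pi / 2 → (∀ i, 0 < ψ i) → ψ 0 + ψ 1 ≤ φ →
      (∀ i, Γ i ≤ suOf n (W i)) → (∀ i, DiscreteTopology (Γ i)) →
      (∀ i, ∀ g ∈ Γ i, g ∉ Γ 0 ⊓ Γ 1 →
        (1 + Real.cos (ψ i) ^ 2) / Real.sin (ψ i) ^ 2 ≤ ‖herm (act g (e i)) (e i)‖) →
      DiscreteAmalgam Γ ∧ (ψ 0 + ψ 1 < φ → ¬ IsLatticeOf n ⊤ (⨆ i, Γ i))) ∧
    (∀ (E : Fin 2 → IntermediateField ℚ ℂ) (X : ∀ i, Submodule (E i) (Fin (n + 1) → ℂ))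
      (Γ : Fin 2 → Subgroup (SpecialLinearGroup (Fin (n + 1)) ℂ)),
      (∀ i, IsArithFK n (E i) (W i) (X i) (Γ i)) → (∀ i, DiscreteTopology (Γ i)) →
      (∀ i, ∀ x ∈ X i, herm x x = 0 → x = 0) → (∀ i, ∃ c : ℂ, c ≠ 0 ∧ c • e i ∈ X i) →
      ∃ Γ' : Fin 2 → Subgroup (SpecialLinearGroup (Fin (n + 1)) ℂ),
        (∀ i, Γ 0 ⊓ Γ 1 ≤ Γ' i ∧ Γ' i ≤ Γ i ∧ (Γ' i).relIndex (Γ i) ≠ 0) ∧
        ∀ Δ : Fin 2 → Subgroup (SpecialLinearGroup (Fin (n + 1)) ℂ), (∀ i, Δ i ≤ Γ' i) →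
          (∀ i, Δ i ⊓ suOf n (W 0 ⊓ W 1) ≤ Δ 0 ⊓ Δ 1) →
          DiscreteAmalgam Δ ∧ ¬ IsLatticeOf n ⊤ (⨆ i, Δ i)) := by
  obtain ⟨u, F, p, hp, hpp⟩ := hWe.frame
  constructor
  · intro Γ φ ψ hφ hφ1 hψ hψφ hΓ hd hcol
    have hs : ∀ i, 0 < Real.sin (ψ i) := by
      intro i
      have h0 := hψ 0
      have h1 := hψ 1
      have h2 := Real.pi_pos
      rcases fin2_cases (i := 0) (j := 1) (by decide) i with rfl | rfl
      · exact Real.sin_pos_of_pos_of_lt_pi h0 (by linarith)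
      · exact Real.sin_pos_of_pos_of_lt_pi h1 (by linarith)
    have H : Wide W e Γ φ ψ := ⟨hφ, hφ1, hψ, hψφ, hΓ, fun i g hg hg3 => by
      have h := hcol i g hg (fun h => hg3 (by
        rw [Subgroup.mem_iInf, Fin.forall_fin_two]; exact h))
      rw [div_le_iff₀ (by have := hs i; positivity)] at h
      linarith⟩
    exact ⟨H.discrete F hp hpp (hd 0), fun hlt => H.not_lattice F hp hpp hlt⟩
  · intro E X Γ hΓ hd haniso hrat
    obtain ⟨Γ', h1, h2⟩ := virtual F hp hpp hΓ hd haniso hrat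
    exact ⟨Γ', h1, fun Δ hΔ hΔ3 =>
      ⟨⟨(h2 Δ hΔ hΔ3).1, (h2 Δ hΔ hΔ3).2.1⟩, (h2 Δ hΔ hΔ3).2.2⟩⟩

end Pool.Agent.Q39.SP.WC
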